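import Mathlib

set_option autoImplicit false

namespace Pool.Agent.Helper914.Tower

open Equiv

variable {L Om : Type} (Ph : L × Om ≃ Om)

/-- `th k p` sends `Ph (j, x)` to `Ph (p j, k (p j) x)`. -/
def th (k : L → Perm Om) (p : Perm L) : Perm Om :=
  (Ph.symm.trans (Equiv.prodShear p (fun j => k (p j)))).trans Ph

theorem th_apply (k : L → Perm Om) (p : Perm L) (j : L) (x : Om) :
    th Ph k p (Ph (j, x)) = Ph (p j, k (p j) x) := by
  simp [th, Equiv.prodShear]

theorem th_ext {g g' : Perm Om} (h : ∀ j x, g (Ph (j, x)) = g' (Ph (j, x))) : g = g' := by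
  ext y
  obtain ⟨⟨j, x⟩, rfl⟩ := Ph.surjective y
  exact h j x

theorem th_mul (k k' : L → Perm Om) (p p' : Perm L) :
    th Ph k p * th Ph k' p' = th Ph (fun j => k j * k' (p⁻¹ j)) (p * p') := by
  apply th_ext Ph
  intro j x
  simp [th_apply, Perm.mul_apply]

theorem th_one : th Ph (fun _ => 1) 1 = 1 := by
  apply th_ext Ph
  intro j x
  simp [th_apply]

theorem th_inv (k : L → Perm Om) (p : Perm L) :
    (th Ph k p)⁻¹ = th Ph (fun j => (k (p j))⁻¹) p⁻¹ := by
  rw [inv_eq_iff_mul_eq_one, th_mul, ← th_one Ph]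
  congr 1
  · funext j; simp
  · simp

/-- The subgroup of all `th k p` with `k j ∈ K`, `p ∈ P`. -/
def W (P : Subgroup (Perm L)) (K : Subgroup (Perm Om)) : Subgroup (Perm Om) where
  carrier := {g | ∃ k : L → Perm Om, ∃ p ∈ P, (∀ j, k j ∈ K) ∧ g = th Ph k p}
  mul_mem' := by
    rintro _ _ ⟨k, p, hp, hk, rfl⟩ ⟨k', p', hp', hk', rfl⟩
    exact ⟨_, _, P.mul_mem hp hp', fun j => K.mul_mem (hk j) (hk' _), th_mul Ph k k' p p'⟩
  one_mem' := ⟨fun _ => 1, 1, P.one_mem, fun _ => K.one_mem, (th_one Ph).symm⟩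
  inv_mem' := by
    rintro _ ⟨k, p, hp, hk, rfl⟩
    exact ⟨_, _, P.inv_mem hp, fun j => K.inv_mem (hk _), th_inv Ph k p⟩

theorem mem_W {P : Subgroup (Perm L)} {K : Subgroup (Perm Om)} {g : Perm Om} :
    g ∈ W Ph P K ↔ ∃ k : L → Perm Om, ∃ p ∈ P, (∀ j, k j ∈ K) ∧ g = th Ph k p := Iff.rfl

theorem W_mono {P : Subgroup (Perm L)} {K K' : Subgroup (Perm Om)} (h : K ≤ K') :
    W Ph P K ≤ W Ph P K' := by
  rintro _ ⟨k, p, hp, hk, rfl⟩
  exact ⟨k, p, hp, fun j => h (hk j), rfl⟩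

/-- torsion with exponents in a submonoid of `ℕ` passes from `K` to `W P K`. -/
theorem W_torsion [Finite L] (M : Submonoid ℕ) {P : Subgroup (Perm L)} {K : Subgroup (Perm Om)}
    (hP : ∀ p ∈ P, ∃ n ∈ M, p ^ n = 1) (hK : ∀ g ∈ K, ∃ n ∈ M, g ^ n = 1) :
    ∀ g ∈ W Ph P K, ∃ n ∈ M, g ^ n = 1 := by
  classical
  have := Fintype.ofFinite L
  rintro g ⟨k, p, hp, hk, rfl⟩
  obtain ⟨n, hnM, hn⟩ := hP p hp
  have key : ∀ m : ℕ, ∃ k' : L → Perm Om, (∀ j, k' j ∈ K) ∧ (th Ph k p) ^ m = th Ph k' (p ^ m) := by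
    intro m
    induction m with
    | zero => exact ⟨fun _ => 1, fun _ => K.one_mem, by simp [th_one]⟩
    | succ m ih =>
      obtain ⟨k', hk', h⟩ := ih
      refine ⟨fun j => k' j * k ((p ^ m)⁻¹ j), fun j => K.mul_mem (hk' _) (hk _), ?_⟩
      rw [pow_succ, h, th_mul, pow_succ]
  obtain ⟨k', hk', h⟩ := key n
  rw [hn] at h
  choose e heM he using fun j => hK (k' j) (hk' j)
  have key2 : ∀ m : ℕ, (th Ph k' 1) ^ m = th Ph (fun j => k' j ^ m) 1 := by
    intro m
    induction m with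
    | zero => simp [th_one]
    | succ m ih =>
      rw [pow_succ, ih, th_mul]
      congr 1
      funext j
      simp [pow_succ]
  refine ⟨n * ∏ j, e j, M.mul_mem hnM (Submonoid.prod_mem M (fun j _ => heM j)), ?_⟩
  rw [pow_mul, h, key2, ← th_one Ph]
  congr 1
  funext j
  obtain ⟨c, hc⟩ := Finset.dvd_prod_of_mem e (Finset.mem_univ j)
  rw [hc, pow_mul, he, one_pow]

/-- A pi group of solvable group is solvable. -/
theorem pi_solvable {I : Type} {G : Type} [Group G] [hG : Group.IsSolvable G] :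
    Group.IsSolvable (I → G) := by
  obtain ⟨n, hn⟩ := hG.solvable
  refine ⟨⟨n, ?_⟩⟩
  rw [eq_bot_iff]
  intro x hx
  rw [Subgroup.mem_bot]
  funext i
  have := map_derivedSeries_le_derivedSeries (Pi.evalMonoidHom (fun _ : I => G) i) n
    (Subgroup.mem_map_of_mem _ hx)
  rw [hn, Subgroup.mem_bot] at this
  simpa using this

theorem W_solvable [Nonempty Om] {P : Subgroup (Perm L)} {K : Subgroup (Perm Om)}
    (hP : Group.IsSolvable P) (hK : Group.IsSolvable K) : Group.IsSolvable (W Ph P K) := by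
  classical
  obtain ⟨x0⟩ := ‹Nonempty Om›
  have hpi : Group.IsSolvable (L → K) := pi_solvable
  -- the projection onto `P`
  have huniq : ∀ (k k' : L → Perm Om) (p p' : Perm L), th Ph k p = th Ph k' p' → p = p' := by
    intro k k' p p' h
    ext j
    have h1 := congrArg (fun g : Perm Om => g (Ph (j, x0))) h
    simp only [th_apply, EmbeddingLike.apply_eq_iff_eq, Prod.mk.injEq] at h1
    exact h1.1
  choose kf pf hpf hkf hf using fun g : W Ph P K => (mem_W Ph).1 g.2
  let F : W Ph P K →* P :=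
    { toFun := fun g => ⟨pf g, hpf g⟩
      map_one' := by
        apply Subtype.ext
        exact huniq _ (fun _ => 1) _ 1 (by rw [← hf, th_one]; rfl)
      map_mul' := by
        intro g g'
        apply Subtype.ext
        refine huniq (kf (g * g')) (fun j => kf g j * kf g' ((pf g)⁻¹ j)) _ (pf g * pf g') ?_
        rw [← hf, Subgroup.coe_mul, hf g, hf g', th_mul] }
  let E : (L → K) →* W Ph P K :=
    { toFun := fun k => ⟨th Ph (fun j => (k j : Perm Om)) 1, ⟨_, 1, P.one_mem, fun j => (k j).2, rfl⟩⟩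
      map_one' := by
        apply Subtype.ext
        simpa using th_one Ph
      map_mul' := by
        intro k k'
        apply Subtype.ext
        simp [th_mul] }
  refine Group.isSolvable_of_ker_le_range E F ?_
  intro g hg
  rw [MonoidHom.mem_ker] at hg
  have hg1 : pf g = 1 := congrArg Subtype.val hg
  refine ⟨fun j => ⟨kf g j, hkf g j⟩, ?_⟩
  apply Subtype.ext
  change th Ph (fun j => kf g j) 1 = g
  rw [hf g, hg1]

/-- the tower of iterated wreath products over `K`. -/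
def tow (P : Subgroup (Perm L)) (K : Subgroup (Perm Om)) : ℕ → Subgroup (Perm Om)
  | 0 => K
  | n + 1 => W Ph P (tow P K n)

theorem tow_mono_succ {P : Subgroup (Perm L)} {K : Subgroup (Perm Om)} (h : K ≤ W Ph P K) (n : ℕ) :
    tow Ph P K n ≤ tow Ph P K (n + 1) := by
  induction n with
  | zero => exact h
  | succ n ih => exact W_mono Ph ih

theorem tow_mono {P : Subgroup (Perm L)} {K : Subgroup (Perm Om)} (h : K ≤ W Ph P K) :
    Monotone (tow Ph P K) :=
  monotone_nat_of_le_succ (tow_mono_succ Ph h)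

/-- the conjugated tower. -/
def btow (P : Subgroup (Perm L)) (t : Perm Om) : ℕ → Subgroup (Perm Om)
  | 0 => ⊥
  | n + 1 => (W Ph P (btow P t n)).map (MulAut.conj t).toMonoidHom

theorem btow_mono_succ {P : Subgroup (Perm L)} {t : Perm Om} (n : ℕ) :
    btow Ph P t n ≤ btow Ph P t (n + 1) := by
  induction n with
  | zero => exact bot_le
  | succ n ih => exact Subgroup.map_mono (W_mono Ph ih)

theorem btow_mono {P : Subgroup (Perm L)} {t : Perm Om} : Monotone (btow Ph P t) :=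
  monotone_nat_of_le_succ (fun n => btow_mono_succ Ph n)

theorem mem_btow_succ {P : Subgroup (Perm L)} {t : Perm Om} {n : ℕ} {g : Perm Om} :
    g ∈ btow Ph P t (n + 1) ↔ ∃ x ∈ W Ph P (btow Ph P t n), g = t * x * t⁻¹ := by
  constructor
  · rintro ⟨x, hx, rfl⟩
    exact ⟨x, hx, rfl⟩
  · rintro ⟨x, hx, rfl⟩
    exact ⟨x, hx, rfl⟩

/-- union of a monotone chain of subgroups -/
def uni {G : Type} [Group G] (f : ℕ → Subgroup G) (hf : Monotone f) : Subgroup G where
  carrier := {g | ∃ n, g ∈ f n}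
  mul_mem' := by
    rintro a b ⟨n, hn⟩ ⟨m, hm⟩
    exact ⟨max n m, (f _).mul_mem (hf (le_max_left _ _) hn) (hf (le_max_right _ _) hm)⟩
  one_mem' := ⟨0, (f 0).one_mem⟩
  inv_mem' := by
    rintro a ⟨n, hn⟩
    exact ⟨n, (f n).inv_mem hn⟩

theorem mem_uni {G : Type} [Group G] {f : ℕ → Subgroup G} {hf : Monotone f} {g : G} :
    g ∈ uni f hf ↔ ∃ n, g ∈ f n := Iff.rfl

theorem uni_family {G : Type} [Group G] {f : ℕ → Subgroup G} (hf : Monotone f) {I : Type} [Finite I]
    (a : I → G) (ha : ∀ i, a i ∈ uni f hf) : ∃ n, ∀ i, a i ∈ f n := by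
  classical
  have := Fintype.ofFinite I
  choose n hn using ha
  refine ⟨Finset.univ.sup n, fun i => hf (Finset.le_sup (Finset.mem_univ i)) (hn i)⟩

/-- torsion of `tow`. -/
theorem tow_torsion [Finite L] (M : Submonoid ℕ) {P : Subgroup (Perm L)} {K : Subgroup (Perm Om)}
    (hP : ∀ p ∈ P, ∃ n ∈ M, p ^ n = 1) (hK : ∀ g ∈ K, ∃ n ∈ M, g ^ n = 1) (n : ℕ) :
    ∀ g ∈ tow Ph P K n, ∃ n ∈ M, g ^ n = 1 := by
  induction n with
  | zero => exact hK
  | succ n ih => exact W_torsion Ph M hP ih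

theorem btow_torsion [Finite L] (M : Submonoid ℕ) {P : Subgroup (Perm L)} {t : Perm Om}
    (hP : ∀ p ∈ P, ∃ n ∈ M, p ^ n = 1) (n : ℕ) :
    ∀ g ∈ btow Ph P t n, ∃ n ∈ M, g ^ n = 1 := by
  induction n with
  | zero =>
    intro g hg
    exact ⟨1, M.one_mem, by simpa [btow] using hg⟩
  | succ n ih =>
    intro g hg
    obtain ⟨x, hx, rfl⟩ := (mem_btow_succ Ph).1 hg
    obtain ⟨m, hm, h⟩ := W_torsion Ph M hP ih x hx
    refine ⟨m, hm, ?_⟩
    rw [conj_pow, h]
    simp

theorem tow_solvable [Nonempty Om] {P : Subgroup (Perm L)} {K : Subgroup (Perm Om)}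
    (hP : Group.IsSolvable P) (hK : Group.IsSolvable K) (n : ℕ) :
    Group.IsSolvable (tow Ph P K n) := by
  induction n with
  | zero => exact hK
  | succ n ih => exact W_solvable Ph hP ih

section fact

variable {P : Subgroup (Perm L)} {h : Perm Om} {c : L → ℤ}

/-- the translation `t`. -/
def tr (h : Perm Om) (c : L → ℤ) : Perm Om := th Ph (fun j => h ^ c j) 1

/-- the big group. -/
def GG (P : Subgroup (Perm L)) (h : Perm Om) (hh : h ∈ W Ph P (Subgroup.zpowers h)) :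
    Subgroup (Perm Om) :=
  uni (tow Ph P (Subgroup.zpowers h))
    (tow_mono Ph (Subgroup.zpowers_le.2 hh))

def AA (P : Subgroup (Perm L)) : Subgroup (Perm Om) :=
  uni (tow Ph P ⊥) (tow_mono Ph bot_le)

def BB (P : Subgroup (Perm L)) (h : Perm Om) (c : L → ℤ) : Subgroup (Perm Om) :=
  uni (btow Ph P (tr Ph h c)) (btow_mono Ph)

theorem W_AA [Finite L] : W Ph P (AA Ph P) ≤ AA Ph P := by
  rintro _ ⟨k, p, hp, hk, rfl⟩
  obtain ⟨n, hn⟩ := uni_family _ k hk
  exact ⟨n + 1, ⟨k, p, hp, hn, rfl⟩⟩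

theorem W_BB [Finite L] {x : Perm Om} (hx : x ∈ W Ph P (BB Ph P h c)) :
    tr Ph h c * x * (tr Ph h c)⁻¹ ∈ BB Ph P h c := by
  obtain ⟨k, p, hp, hk, rfl⟩ := hx
  obtain ⟨n, hn⟩ := uni_family _ k hk
  exact ⟨n + 1, (mem_btow_succ Ph).2 ⟨_, ⟨k, p, hp, hn, rfl⟩, rfl⟩⟩

/-- double coset relation -/
def R (P : Subgroup (Perm L)) (h : Perm Om) (c : L → ℤ) (g g' : Perm Om) : Prop :=
  ∃ a ∈ AA Ph P, ∃ b ∈ BB Ph P h c, g' = a * g * b

theorem R_refl (g : Perm Om) : R Ph P h c g g :=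
  ⟨1, Subgroup.one_mem _, 1, Subgroup.one_mem _, by simp⟩

theorem R_symm {g g' : Perm Om} (H : R Ph P h c g g') : R Ph P h c g' g := by
  obtain ⟨a, ha, b, hb, rfl⟩ := H
  exact ⟨a⁻¹, Subgroup.inv_mem _ ha, b⁻¹, Subgroup.inv_mem _ hb, by group⟩

theorem R_trans {g g' g'' : Perm Om} (H : R Ph P h c g g') (H' : R Ph P h c g' g'') :
    R Ph P h c g g'' := by
  obtain ⟨a, ha, b, hb, rfl⟩ := H
  obtain ⟨a', ha', b', hb', rfl⟩ := H'
  exact ⟨a' * a, Subgroup.mul_mem _ ha' ha, b * b', Subgroup.mul_mem _ hb hb', by group⟩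

theorem R_lift [Finite L] {g g' : Perm Om} {k k' : L → Perm Om} {p p' r : Perm L}
    (hp : p ∈ P) (hp' : p' ∈ P) (hr : r ∈ P)
    (hg : g * tr Ph h c = th Ph k p) (hg' : g' * tr Ph h c = th Ph k' p')
    (H : ∀ i, R Ph P h c (k i) (k' (r i))) : R Ph P h c g g' := by
  choose a ha b hb hab using H
  refine ⟨th Ph (fun i => a (r⁻¹ i)) r, W_AA Ph ⟨_, r, hr, fun i => ha _, rfl⟩,
    tr Ph h c * (th Ph (fun i => b (p i)) (p⁻¹ * r⁻¹ * p')) * (tr Ph h c)⁻¹,
    W_BB Ph ⟨_, _, P.mul_mem (P.mul_mem (P.inv_mem hp) (P.inv_mem hr)) hp', fun i => hb _, rfl⟩, ?_⟩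
  have h1 : th Ph (fun i => a (r⁻¹ i)) r * (g * tr Ph h c) * th Ph (fun i => b (p i)) (p⁻¹ * r⁻¹ * p')
      = g' * tr Ph h c := by
    rw [hg, hg', th_mul, th_mul]
    congr 1
    · funext i
      have := hab (r⁻¹ i)
      rw [show r (r⁻¹ i) = i by simp] at this
      rw [this]
      simp [mul_inv_rev, Perm.mul_apply]
    · group
  calc g' = (g' * tr Ph h c) * (tr Ph h c)⁻¹ := by group
    _ = _ := by rw [← h1]; group

/-- all elements of the big group are in one double coset, once the powers of `h` are. -/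
theorem fact [Finite L] (hh : h ∈ W Ph P (Subgroup.zpowers h))
    (base : ∀ x : ℤ, R Ph P h c 1 (h ^ x)) :
    ∀ g ∈ GG Ph P h hh, ∃ a ∈ AA Ph P, ∃ b ∈ BB Ph P h c, g = a * b := by
  have key : ∀ n : ℕ, ∀ g ∈ tow Ph P (Subgroup.zpowers h) n, R Ph P h c 1 g := by
    intro n
    induction n with
    | zero =>
      rintro g ⟨x, rfl⟩
      exact base x
    | succ n ih =>
      rintro g ⟨k, p, hp, hk, rfl⟩
      have hmono := tow_mono Ph (P := P) (Subgroup.zpowers_le.2 hh)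
      refine R_lift Ph (k := fun j => h ^ c j) (p := 1) (r := 1)
        (k' := fun j => k j * h ^ c (p⁻¹ j)) (p' := p) P.one_mem hp P.one_mem ?_ ?_ ?_
      · rw [one_mul, tr]
      · rw [tr, th_mul, mul_one]
      · intro i
        refine R_trans Ph (R_symm Ph (base _)) (ih _ ?_)
        refine Subgroup.mul_mem _ (hk _) ?_
        exact hmono (Nat.zero_le n) (Subgroup.zpow_mem_zpowers _ _)
  rintro g ⟨n, hn⟩
  obtain ⟨a, ha, b, hb, hab⟩ := key n g hn
  exact ⟨a, ha, b, hb, by simpa using hab⟩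

theorem AA_le (hh : h ∈ W Ph P (Subgroup.zpowers h)) : AA Ph P ≤ GG Ph P h hh := by
  rintro g ⟨n, hn⟩
  refine ⟨n, ?_⟩
  have : ∀ n, tow Ph P ⊥ n ≤ tow Ph P (Subgroup.zpowers h) n := by
    intro n
    induction n with
    | zero => exact bot_le
    | succ n ih => exact W_mono Ph ih
  exact this n hn

theorem BB_le (hh : h ∈ W Ph P (Subgroup.zpowers h)) : BB Ph P h c ≤ GG Ph P h hh := by
  have hmono := tow_mono Ph (P := P) (Subgroup.zpowers_le.2 hh)
  have ht : ∀ n, tr Ph h c ∈ tow Ph P (Subgroup.zpowers h) (n + 1) := by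
    intro n
    refine hmono (Nat.succ_le_succ (Nat.zero_le n)) ?_
    exact ⟨_, 1, P.one_mem, fun j => Subgroup.zpow_mem_zpowers _ _, rfl⟩
  have : ∀ n, btow Ph P (tr Ph h c) n ≤ tow Ph P (Subgroup.zpowers h) n := by
    intro n
    induction n with
    | zero => exact bot_le
    | succ n ih =>
      intro g hg
      obtain ⟨x, hx, rfl⟩ := (mem_btow_succ Ph).1 hg
      exact Subgroup.mul_mem _ (Subgroup.mul_mem _ (ht n) (W_mono Ph ih hx))
        (Subgroup.inv_mem _ (ht n))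
  rintro g ⟨n, hn⟩
  exact ⟨n, this n hn⟩

/-- local solvability -/
theorem GG_locally_solvable [Nonempty Om] (hh : h ∈ W Ph P (Subgroup.zpowers h))
    (hP : Group.IsSolvable P) (S : Finset (GG Ph P h hh)) :
    Group.IsSolvable (Subgroup.closure (S : Set (GG Ph P h hh))) := by
  classical
  obtain ⟨n, hn⟩ := uni_family (tow_mono Ph (P := P) (Subgroup.zpowers_le.2 hh))
    (fun s : S => ((s : GG Ph P h hh) : Perm Om)) (fun s => (s : GG Ph P h hh).2)
  have hle : (Subgroup.closure (S : Set (GG Ph P h hh))).map (GG Ph P h hh).subtype ≤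
      tow Ph P (Subgroup.zpowers h) n := by
    rw [Subgroup.map_le_iff_le_comap, Subgroup.closure_le]
    intro s hs
    exact hn ⟨s, hs⟩
  have hsol : Group.IsSolvable (tow Ph P (Subgroup.zpowers h) n) := by
    refine tow_solvable Ph hP ?_ n
    refine Group.isSolvable_of_comm ?_
    rintro ⟨a, x, rfl⟩ ⟨b, y, rfl⟩
    apply Subtype.ext
    exact ((Commute.refl h).zpow_zpow x y).eq
  let f : Subgroup.closure (S : Set (GG Ph P h hh)) →* tow Ph P (Subgroup.zpowers h) n :=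
    { toFun := fun x => ⟨((x : GG Ph P h hh) : Perm Om), hle ⟨x, x.2, rfl⟩⟩
      map_one' := rfl
      map_mul' := fun _ _ => rfl }
  refine Group.isSolvable_of_isSolvable_injective (f := f) ?_
  intro x y hxy
  have := congrArg Subtype.val hxy
  exact Subtype.ext (Subtype.ext this)

end fact

end Pool.Agent.Helper914.Tower
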