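import Mathlib
import Pool.Agent.Helper914.Tower

set_option autoImplicit false

namespace Pool.Agent.Helper914.Tower2

open Equiv Pool.Agent.Helper914.Tower

variable {L Om : Type} (Ph : L × Om ≃ Om)

/-- towers of iterated wreath products, conjugated at each level -/
def ctow (P : Subgroup (Perm L)) (S : ℕ → L → Perm Om) : ℕ → ℕ → Subgroup (Perm Om)
  | 0, _ => ⊥
  | k + 1, i => (W Ph P (ctow P S k (i + 1))).map (MulAut.conj (th Ph (S i) 1)).toMonoidHom

variable {P : Subgroup (Perm L)} {S T : ℕ → L → Perm Om}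

theorem mem_ctow_succ {k i : ℕ} {g : Perm Om} :
    g ∈ ctow Ph P S (k + 1) i ↔
      ∃ x ∈ W Ph P (ctow Ph P S k (i + 1)), g = th Ph (S i) 1 * x * (th Ph (S i) 1)⁻¹ := by
  constructor
  · rintro ⟨x, hx, rfl⟩
    exact ⟨x, hx, rfl⟩
  · rintro ⟨x, hx, rfl⟩
    exact ⟨x, hx, rfl⟩

theorem ctow_mono_succ (k i : ℕ) : ctow Ph P S k i ≤ ctow Ph P S (k + 1) i := by
  induction k generalizing i with
  | zero => exact bot_le
  | succ k ih => exact Subgroup.map_mono (W_mono Ph (ih (i + 1)))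

theorem ctow_mono (i : ℕ) : Monotone (fun k => ctow Ph P S k i) :=
  monotone_nat_of_le_succ (fun k => ctow_mono_succ Ph k i)

theorem ctow_torsion [Finite L] (M : Submonoid ℕ)
    (hP : ∀ p ∈ P, ∃ n ∈ M, p ^ n = 1) (k i : ℕ) :
    ∀ g ∈ ctow Ph P S k i, ∃ n ∈ M, g ^ n = 1 := by
  induction k generalizing i with
  | zero =>
    intro g hg
    exact ⟨1, M.one_mem, by simpa [ctow] using hg⟩
  | succ k ih =>
    intro g hg
    obtain ⟨x, hx, rfl⟩ := (mem_ctow_succ Ph).1 hg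
    obtain ⟨m, hm, h⟩ := W_torsion Ph M hP (ih (i + 1)) x hx
    refine ⟨m, hm, ?_⟩
    rw [conj_pow, h]
    simp

theorem ctow_le {K : Subgroup (Perm Om)} (hK : K ≤ W Ph P K) (hS : ∀ i j, S i j ∈ K) (k i : ℕ) :
    ctow Ph P S k i ≤ tow Ph P K k := by
  induction k generalizing i with
  | zero => exact bot_le
  | succ k ih =>
    have ht : th Ph (S i) 1 ∈ tow Ph P K (k + 1) := by
      refine tow_mono Ph hK (Nat.succ_le_succ (Nat.zero_le k)) ?_
      exact ⟨_, 1, P.one_mem, fun j => hS i j, rfl⟩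
    intro g hg
    obtain ⟨x, hx, rfl⟩ := (mem_ctow_succ Ph).1 hg
    exact Subgroup.mul_mem _ (Subgroup.mul_mem _ ht (W_mono Ph (ih (i + 1)) hx))
      (Subgroup.inv_mem _ ht)

/-- union of the conjugated tower at level `i` -/
def CC (P : Subgroup (Perm L)) (S : ℕ → L → Perm Om) (i : ℕ) : Subgroup (Perm Om) :=
  uni (fun k => ctow Ph P S k i) (ctow_mono Ph i)

theorem W_CC [Finite L] {i : ℕ} {x : Perm Om} (hx : x ∈ W Ph P (CC Ph P S (i + 1))) :
    th Ph (S i) 1 * x * (th Ph (S i) 1)⁻¹ ∈ CC Ph P S i := by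
  obtain ⟨k, p, hp, hk, rfl⟩ := hx
  obtain ⟨n, hn⟩ := uni_family _ k hk
  exact ⟨n + 1, (mem_ctow_succ Ph).2 ⟨_, ⟨k, p, hp, hn, rfl⟩, rfl⟩⟩

/-- double coset relation at level `i` -/
def R (P : Subgroup (Perm L)) (S T : ℕ → L → Perm Om) (i : ℕ) (g g' : Perm Om) : Prop :=
  ∃ a ∈ CC Ph P S i, ∃ b ∈ CC Ph P T i, g' = a * g * b

theorem R_refl (i : ℕ) (g : Perm Om) : R Ph P S T i g g :=
  ⟨1, Subgroup.one_mem _, 1, Subgroup.one_mem _, by simp⟩

theorem R_symm {i : ℕ} {g g' : Perm Om} (H : R Ph P S T i g g') : R Ph P S T i g' g := by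
  obtain ⟨a, ha, b, hb, rfl⟩ := H
  exact ⟨a⁻¹, Subgroup.inv_mem _ ha, b⁻¹, Subgroup.inv_mem _ hb, by group⟩

theorem R_trans {i : ℕ} {g g' g'' : Perm Om} (H : R Ph P S T i g g') (H' : R Ph P S T i g' g'') :
    R Ph P S T i g g'' := by
  obtain ⟨a, ha, b, hb, rfl⟩ := H
  obtain ⟨a', ha', b', hb', rfl⟩ := H'
  exact ⟨a' * a, Subgroup.mul_mem _ ha' ha, b * b', Subgroup.mul_mem _ hb hb', by group⟩

theorem R_lift [Finite L] {i : ℕ} {g g' : Perm Om} {k k' : L → Perm Om} {p p' r : Perm L}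
    (hp : p ∈ P) (hp' : p' ∈ P) (hr : r ∈ P)
    (hg : (th Ph (S i) 1)⁻¹ * g * th Ph (T i) 1 = th Ph k p)
    (hg' : (th Ph (S i) 1)⁻¹ * g' * th Ph (T i) 1 = th Ph k' p')
    (H : ∀ j, R Ph P S T (i + 1) (k j) (k' (r j))) : R Ph P S T i g g' := by
  choose a ha b hb hab using H
  refine ⟨th Ph (S i) 1 * th Ph (fun j => a (r⁻¹ j)) r * (th Ph (S i) 1)⁻¹,
    W_CC Ph ⟨_, r, hr, fun j => ha _, rfl⟩,
    th Ph (T i) 1 * (th Ph (fun j => b (p j)) (p⁻¹ * r⁻¹ * p')) * (th Ph (T i) 1)⁻¹,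
    W_CC Ph ⟨_, _, P.mul_mem (P.mul_mem (P.inv_mem hp) (P.inv_mem hr)) hp', fun j => hb _, rfl⟩, ?_⟩
  have h1 : th Ph (fun j => a (r⁻¹ j)) r * ((th Ph (S i) 1)⁻¹ * g * th Ph (T i) 1)
      * th Ph (fun j => b (p j)) (p⁻¹ * r⁻¹ * p') = (th Ph (S i) 1)⁻¹ * g' * th Ph (T i) 1 := by
    rw [hg, hg', th_mul, th_mul]
    congr 1
    · funext j
      have := hab (r⁻¹ j)
      rw [show r (r⁻¹ j) = j by simp] at this
      rw [this]
      simp [mul_inv_rev, Perm.mul_apply]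
    · group
  calc g' = th Ph (S i) 1 * ((th Ph (S i) 1)⁻¹ * g' * th Ph (T i) 1) * (th Ph (T i) 1)⁻¹ := by group
    _ = _ := by rw [← h1]; group

/-- all elements of the big group are in one double coset, once the elements of `K` are. -/
theorem fact [Finite L] {K : Subgroup (Perm Om)}
    (hS : ∀ i j, S i j ∈ K) (hT : ∀ i j, T i j ∈ K) (hK : K ≤ W Ph P K)
    (base : ∀ i, ∀ x ∈ K, R Ph P S T i 1 x) (k i : ℕ) :
    ∀ g ∈ tow Ph P K k, R Ph P S T i 1 g := by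
  induction k generalizing i with
  | zero =>
    intro g hg
    exact base i g hg
  | succ n ih =>
    rintro g ⟨k, p, hp, hk, rfl⟩
    have hmono := tow_mono Ph (P := P) hK
    have hmono0 : K ≤ tow Ph P K n := hmono (Nat.zero_le n)
    refine R_lift Ph (k := fun j => (S i j)⁻¹ * T i j) (p := 1) (r := 1)
      (k' := fun j => (S i j)⁻¹ * k j * T i (p⁻¹ j)) (p' := p) P.one_mem hp P.one_mem ?_ ?_ ?_
    · rw [mul_one, th_inv, th_mul]
      simp
    · rw [th_inv, th_mul, th_mul]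
      simp
    · intro j
      refine R_trans Ph (R_symm Ph (base _ _ (K.mul_mem (K.inv_mem (hS _ _)) (hT _ _)))) (ih _ _ ?_)
      exact Subgroup.mul_mem _ (Subgroup.mul_mem _ (Subgroup.inv_mem _ (hmono0 (hS _ _))) (hk _))
        (hmono0 (hT _ _))

/-- finiteness -/
theorem W_finite [Finite L] {K : Subgroup (Perm Om)} (hK : (K : Set (Perm Om)).Finite) :
    (W Ph P K : Set (Perm Om)).Finite := by
  have : Finite K := hK
  refine Set.Finite.subset (Set.finite_range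
    (fun z : (L → K) × Perm L => th Ph (fun j => (z.1 j : Perm Om)) z.2)) ?_
  rintro g ⟨k, p, hp, hk, rfl⟩
  exact ⟨(fun j => ⟨k j, hk j⟩, p), rfl⟩

theorem tow_finite [Finite L] {K : Subgroup (Perm Om)} (hK : (K : Set (Perm Om)).Finite) (k : ℕ) :
    (tow Ph P K k : Set (Perm Om)).Finite := by
  induction k with
  | zero => exact hK
  | succ k ih => exact W_finite Ph ih

end Pool.Agent.Helper914.Tower2
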