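import Mathlib
import Pool.Agent.Helper914.Tower2

set_option autoImplicit false

namespace Pool.Agent.Helper914.Merge

open Equiv Pool.Agent.Helper914.Tower Pool.Agent.Helper914.Tower2

section rel

variable {H : Type} [Group H] (n N : ℕ)

/-- the leaf functions of a step `(c1, c2, y)` -/
def kap (st : H × H × H) (x : H) (j : ZMod n) : H :=
  if j.val < N then st.1 ^ j.val * x * st.2.1 ^ j.val else st.2.2

/-- one merging step -/
def stepRel (st : H × H × H) (E : H → H → Prop) (x x' : H) : Prop :=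
  ∃ r : ZMod n, ∀ j, E (kap n N st x j) (kap n N st x' (j + r))

/-- the relation produced by a list of steps -/
def rel (l : List (H × H × H)) : H → H → Prop := l.foldr (stepRel n N) (fun x x' => x = x')

theorem stepRel_equiv {st : H × H × H} {E : H → H → Prop} (hE : Equivalence E) :
    Equivalence (stepRel n N st E) where
  refl := fun x => ⟨0, fun j => by rw [add_zero]; exact hE.refl _⟩
  symm := by
    rintro x y ⟨r, hr⟩
    refine ⟨-r, fun j => ?_⟩
    have := hr (j + -r)
    rw [show j + -r + r = j by ring] at this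
    exact hE.symm this
  trans := by
    rintro x y z ⟨r, hr⟩ ⟨r', hr'⟩
    refine ⟨r + r', fun j => ?_⟩
    rw [← add_assoc]
    exact hE.trans (hr j) (hr' _)

theorem rel_equiv (l : List (H × H × H)) : Equivalence (rel n N l) := by
  induction l with
  | nil => exact ⟨fun _ => rfl, fun h => h.symm, fun h h' => h.trans h'⟩
  | cons a l ih => exact stepRel_equiv n N ih

/-- `E` can be achieved by a program -/
def Mg (E : H → H → Prop) : Prop := ∃ l, ∀ x x', E x x' → rel n N l x x'

variable {n N}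

/-- the rotation argument -/
theorem rotate [NeZero n] (hN : N ≤ n) {c1 c2 y : H} (h1 : c1 ^ N = 1) (h2 : c2 ^ N = 1)
    {E : H → H → Prop} (hE : Equivalence E) {k : ℕ} (hk : k + 1 ≤ N)
    (ih : ∀ i, i ≤ k → E y (c1 ^ i * y * c2 ^ i)) :
    ∀ a, a ≤ k + 1 → stepRel n N (c1, c2, y) E y (c1 ^ a * y * c2 ^ a) := by
  intro a ha
  have hred : ∀ e : ℕ, N ≤ e → c1 ^ e * y * c2 ^ e = c1 ^ (e - N) * y * c2 ^ (e - N) := by
    intro e he
    obtain ⟨d, rfl⟩ := Nat.exists_eq_add_of_le he
    rw [Nat.add_sub_cancel_left, pow_add, pow_add, h1, h2, one_mul, one_mul]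
  have ih2 : ∀ e : ℕ, N ≤ e → e ≤ k + N → E y (c1 ^ e * y * c2 ^ e) := by
    intro e he he'
    rw [hred e he]
    exact ih _ (by omega)
  have key : ∀ j' : ZMod n,
      E (kap n N (c1, c2, y) y (j' + (a : ZMod n)))
        (kap n N (c1, c2, y) (c1 ^ a * y * c2 ^ a) j') := by
    intro j'
    have hj : j'.val < n := ZMod.val_lt j'
    have hcomb : c1 ^ j'.val * (c1 ^ a * y * c2 ^ a) * c2 ^ j'.val =
        c1 ^ (j'.val + a) * y * c2 ^ (j'.val + a) := by
      rw [pow_add, add_comm, pow_add]
      group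
    have hv : (j' + (a : ZMod n)).val = (j'.val + a) % n := by
      rw [ZMod.val_add, ZMod.val_natCast]
      simp
    simp only [kap]
    rw [hcomb]
    rcases lt_or_ge (j'.val + a) n with hlt | hge
    · rw [Nat.mod_eq_of_lt hlt] at hv
      rw [hv]
      by_cases hjN : j'.val < N
      · rw [if_pos hjN]
        by_cases hiN : j'.val + a < N
        · rw [if_pos hiN]
          exact hE.refl _
        · rw [if_neg hiN]
          exact ih2 _ (by omega) (by omega)
      · rw [if_neg hjN, if_neg (by omega)]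
        exact hE.refl _
    · have hmod : (j'.val + a) % n = j'.val + a - n := by
        rw [Nat.mod_eq_sub_mod hge]
        rcases lt_or_ge (j'.val + a - n) n with h | h
        · exact Nat.mod_eq_of_lt h
        · have : j'.val + a - n = n := by omega
          omega
      rw [hmod] at hv
      rw [hv]
      rw [if_pos (show j'.val + a - n < N by omega)]
      refine hE.trans (hE.symm (ih _ (by omega))) ?_
      by_cases hjN : j'.val < N
      · rw [if_pos hjN]
        exact ih2 _ (by omega) (by omega)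
      · rw [if_neg hjN]
        exact hE.refl _
  refine ⟨-(a : ZMod n), fun j => ?_⟩
  have := key (j + -(a : ZMod n))
  rw [show j + -(a : ZMod n) + (a : ZMod n) = j by ring] at this
  exact this

/-- merging a cyclic orbit while keeping a stable relation -/
theorem Mg_orbit [NeZero n] (hN : N ≤ n) (hN0 : 0 < N) {c1 c2 : H} (y : H)
    (h1 : c1 ^ N = 1) (h2 : c2 ^ N = 1)
    {D : H → H → Prop} (hD : Mg n N D) (hst : ∀ x x', D x x' → D (c1 * x * c2) (c1 * x' * c2)) :
    ∃ l, (∀ x x', D x x' → rel n N l x x') ∧ ∀ a : ℕ, rel n N l y (c1 ^ a * y * c2 ^ a) := by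
  have hst' : ∀ x x', D x x' → ∀ j : ℕ, D (c1 ^ j * x * c2 ^ j) (c1 ^ j * x' * c2 ^ j) := by
    intro x x' h j
    induction j with
    | zero => simpa using h
    | succ j ih =>
      have := hst _ _ ih
      rw [pow_succ', pow_succ]
      simpa [mul_assoc] using this
  have main : ∀ k : ℕ, k ≤ N →
      ∃ l, (∀ x x', D x x' → rel n N l x x') ∧ ∀ a : ℕ, a ≤ k → rel n N l y (c1 ^ a * y * c2 ^ a) := by
    intro k
    induction k with
    | zero =>
      intro _
      obtain ⟨l, hl⟩ := hD
      refine ⟨l, hl, ?_⟩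
      intro a ha
      obtain rfl : a = 0 := by omega
      simpa using (rel_equiv n N l).refl y
    | succ k ih =>
      intro hk
      obtain ⟨l, hl, hl'⟩ := ih (by omega)
      refine ⟨(c1, c2, y) :: l, ?_, ?_⟩
      · intro x x' h
        refine ⟨0, fun j => ?_⟩
        rw [add_zero]
        simp only [kap]
        split
        · exact hl _ _ (hst' _ _ h _)
        · exact (rel_equiv n N l).refl _
      · exact rotate hN h1 h2 (rel_equiv n N l) hk hl'
  obtain ⟨l, hl, hl'⟩ := main N le_rfl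
  refine ⟨l, hl, ?_⟩
  intro a
  have : c1 ^ a * y * c2 ^ a = c1 ^ (a % N) * y * c2 ^ (a % N) := by
    conv_lhs => rw [← Nat.div_add_mod a N, pow_add, pow_add, pow_mul, pow_mul, h1, h2]
    simp
  rw [this]
  exact hl' _ (Nat.mod_lt _ hN0).le

theorem Mg_mono {E E' : H → H → Prop} (h : Mg n N E) (hE : ∀ x x', E' x x' → E x x') :
    Mg n N E' := by
  obtain ⟨l, hl⟩ := h
  exact ⟨l, fun x x' hx => hl _ _ (hE _ _ hx)⟩

/-- left cosets of `K` -/
def co (K : Subgroup H) (x x' : H) : Prop := x⁻¹ * x' ∈ K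

theorem Mg_bot : Mg n N (co (⊥ : Subgroup H)) := by
  refine ⟨[], fun x x' h => ?_⟩
  have h1 : x⁻¹ * x' = 1 := h
  change x = x'
  exact inv_mul_eq_one.1 h1

/-- from the left cosets of `K` to the left cosets of `K' = K ⟨c⟩` -/
theorem Mg_chain [NeZero n] (hN : N ≤ n) (hN0 : 0 < N) [Finite H] {K K' : Subgroup H} {c : H}
    (hc : c ^ N = 1) (hcK' : c ∈ K') (hnorm : ∀ x ∈ K, c⁻¹ * x * c ∈ K)
    (hgen : ∀ x ∈ K', ∃ a : ℕ, (c ^ a)⁻¹ * x ∈ K) (h : Mg n N (co K)) : Mg n N (co K') := by
  classical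
  have := Fintype.ofFinite H
  let D : Finset H → H → H → Prop := fun S x x' =>
    x⁻¹ * x' ∈ K ∨ ((∃ y ∈ S, y⁻¹ * x ∈ K') ∧ x⁻¹ * x' ∈ K')
  have main : ∀ S : Finset H, Mg n N (D S) := by
    intro S
    induction S using Finset.induction_on with
    | empty =>
      refine Mg_mono h ?_
      rintro x x' (h | ⟨⟨y, hy, _⟩, _⟩)
      · exact h
      · simp at hy
    | insert y S _ ih =>
      have hst : ∀ x x', D S x x' → D S (1 * x * c) (1 * x' * c) := by
        rintro x x' (h | ⟨⟨z, hz, hzx⟩, hx⟩)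
        · left
          have := hnorm _ h
          convert this using 1
          group
        · right
          refine ⟨⟨z, hz, ?_⟩, ?_⟩
          · rw [one_mul, ← mul_assoc]
            exact K'.mul_mem hzx hcK'
          · have : (1 * x * c)⁻¹ * (1 * x' * c) = c⁻¹ * (x⁻¹ * x') * c := by group
            rw [this]
            exact K'.mul_mem (K'.mul_mem (K'.inv_mem hcK') hx) hcK'
      obtain ⟨l, hl, hl'⟩ := Mg_orbit hN hN0 y (one_pow N) hc ih hst
      have hq := rel_equiv n N l
      have hy : ∀ x, y⁻¹ * x ∈ K' → rel n N l y x := by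
        intro x hx
        obtain ⟨a, ha⟩ := hgen _ hx
        have h1 := hl' a
        refine hq.trans h1 (hl _ _ (Or.inl ?_))
        convert ha using 1
        simp [mul_assoc]
      refine ⟨l, ?_⟩
      rintro x x' (h | ⟨⟨z, hz, hzx⟩, hx⟩)
      · exact hl _ _ (Or.inl h)
      · rcases Finset.mem_insert.1 hz with rfl | hz
        · refine hq.trans (hq.symm (hy _ hzx)) (hy _ ?_)
          have : z⁻¹ * x' = (z⁻¹ * x) * (x⁻¹ * x') := by group
          rw [this]
          exact K'.mul_mem hzx hx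
        · exact hl _ _ (Or.inr ⟨⟨z, hz, hzx⟩, hx⟩)
  refine Mg_mono (main Finset.univ) ?_
  intro x x' h
  exact Or.inr ⟨⟨x, Finset.mem_univ _, by simpa using K'.one_mem⟩, h⟩

/-- from the left cosets of `K` to everything, if `H = ⟨b⟩ K` -/
theorem Mg_top [NeZero n] (hN : N ≤ n) (hN0 : 0 < N) {K : Subgroup H} {b : H}
    (hb : b ^ N = 1) (hgen : ∀ x : H, ∃ a : ℕ, (b ^ a)⁻¹ * x ∈ K) (h : Mg n N (co K)) :
    ∃ l, ∀ x x' : H, rel n N l x x' := by
  have hst : ∀ x x', co K x x' → co K (b * x * 1) (b * x' * 1) := by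
    intro x x' h
    have : (b * x * 1)⁻¹ * (b * x' * 1) = x⁻¹ * x' := by group
    change (b * x * 1)⁻¹ * (b * x' * 1) ∈ K
    rw [this]
    exact h
  obtain ⟨l, hl, hl'⟩ := Mg_orbit hN hN0 1 hb (one_pow N) h hst
  have hq := rel_equiv n N l
  have hy : ∀ x, rel n N l 1 x := by
    intro x
    obtain ⟨a, ha⟩ := hgen x
    have h1 := hl' a
    refine hq.trans h1 (hl _ _ ?_)
    change (b ^ a * 1 * 1 ^ a)⁻¹ * x ∈ K
    simpa using ha
  exact ⟨l, fun x x' => hq.trans (hq.symm (hy x)) (hy x')⟩

end rel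

end Pool.Agent.Helper914.Merge
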