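import Mathlib
import Pool.Agent.Helper914.Merge

set_option autoImplicit false

namespace Pool.Agent.Helper914.Wr

open Pool.Agent.Helper914
open Equiv Pool.Agent.Helper914.Tower Pool.Agent.Helper914.Tower2 Pool.Agent.Helper914.Merge

/-- infinite words together with a colour -/
abbrev Om (n : ℕ) (H : Type) := (ℕ → ZMod n) × H

section

variable (n : ℕ)

/-- prepending a letter to a word -/
def cons (j : ZMod n) (z : ℕ → ZMod n) : ℕ → ZMod n
  | 0 => j
  | i + 1 => z i

/-- prepending a letter -/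
def Ph (H : Type) : ZMod n × Om n H ≃ Om n H where
  toFun := fun z => (cons n z.1 z.2.1, z.2.2)
  invFun := fun w => (w.1 0, (fun i => w.1 (i + 1), w.2))
  left_inv := by
    rintro ⟨j, z, x⟩
    rfl
  right_inv := by
    rintro ⟨z, x⟩
    refine Prod.ext ?_ rfl
    funext i
    cases i <;> rfl

theorem Ph_apply {H : Type} (j : ZMod n) (z : ℕ → ZMod n) (x : H) :
    Ph n H (j, (z, x)) = (cons n j z, x) := rfl

/-- the rotations -/
def P : Subgroup (Perm (ZMod n)) where
  carrier := {p | ∃ a : ZMod n, ∀ j, p j = j + a}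
  mul_mem' := by
    rintro p q ⟨a, ha⟩ ⟨b, hb⟩
    refine ⟨b + a, fun j => ?_⟩
    rw [Perm.mul_apply, ha, hb, add_assoc]
  one_mem' := ⟨0, fun j => by simp⟩
  inv_mem' := by
    rintro p ⟨a, ha⟩
    refine ⟨-a, fun j => ?_⟩
    have := ha (p⁻¹ j)
    rw [show p (p⁻¹ j) = j by simp] at this
    rw [eq_add_neg_iff_add_eq, ← this]

theorem P_solvable : Group.IsSolvable (P n) := by
  refine Group.isSolvable_of_comm ?_
  rintro ⟨p, a, ha⟩ ⟨q, b, hb⟩
  apply Subtype.ext
  change p * q = q * p
  ext1 j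
  rw [Perm.mul_apply, Perm.mul_apply, ha, hb, hb, ha]
  ring

theorem P_pow (p : Perm (ZMod n)) (hp : p ∈ P n) : p ^ n = 1 := by
  obtain ⟨a, ha⟩ := hp
  have key : ∀ m : ℕ, ∀ j, (p ^ m) j = j + m * a := by
    intro m
    induction m with
    | zero => intro j; simp
    | succ m ih =>
      intro j
      rw [pow_succ, Perm.mul_apply, ih, ha]
      push_cast; ring
  ext1 j
  rw [key]
  simp

end

section

variable (n N : ℕ) {H : Type} [Group H]

open Classical in
/-- left multiplication of the colour on words all of whose letters are `< N` -/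
noncomputable def io : H →* Perm (Om n H) where
  toFun := fun x =>
    { toFun := fun w => (w.1, if (∀ i, (w.1 i).val < N) then x * w.2 else w.2)
      invFun := fun w => (w.1, if (∀ i, (w.1 i).val < N) then x⁻¹ * w.2 else w.2)
      left_inv := by
        rintro ⟨z, x⟩
        by_cases h : ∀ i, (z i).val < N <;> simp [h]
      right_inv := by
        rintro ⟨z, x⟩
        by_cases h : ∀ i, (z i).val < N <;> simp [h] }
  map_one' := by
    ext1 ⟨z, x⟩
    by_cases h : ∀ i, (z i).val < N <;> simp [h]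
  map_mul' := by
    intro a b
    ext1 ⟨z, x⟩
    rw [Perm.mul_apply]
    by_cases h : ∀ i, (z i).val < N
    · simp only [Equiv.coe_fn_mk, h, implies_true, if_true, mul_assoc]
    · simp [h]

open Classical in
theorem io_apply (a : H) (z : ℕ → ZMod n) (x : H) :
    (io n N a) (z, x) = (z, if (∀ i, (z i).val < N) then a * x else x) := rfl

theorem io_inj [NeZero N] : Function.Injective (io n N : H → Perm (Om n H)) := by
  intro a b hab
  have h2 := congrArg (fun g : Perm (Om n H) => (g (fun _ => 0, 1)).2) hab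
  have h3 : ∀ i : ℕ, ((fun _ => (0 : ZMod n)) i).val < N := by
    intro i
    simpa using Nat.pos_of_ne_zero (NeZero.ne N)
  simp only [io_apply] at h2
  rw [if_pos h3, if_pos h3] at h2
  simpa using h2

theorem io_th (x : H) :
    io n N x = th (Ph n H) (fun j => io n N (if j.val < N then x else 1)) 1 := by
  apply th_ext (Ph n H)
  rintro j ⟨z, y⟩
  rw [th_apply, Ph_apply, io_apply, io_apply, Ph_apply]
  have key : (∀ i : ℕ, (cons n j z i).val < N) ↔ (j.val < N ∧ ∀ i, (z i).val < N) := by
    constructor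
    · intro H
      exact ⟨H 0, fun i => H (i + 1)⟩
    · rintro ⟨h1, h2⟩ i
      cases i
      · exact h1
      · exact h2 _
  refine Prod.ext rfl ?_
  by_cases h1 : j.val < N <;> by_cases h2 : ∀ i, (z i).val < N
  · have h3 : ∀ i : ℕ, (cons n j z i).val < N := key.2 ⟨h1, h2⟩
    simp only [Perm.coe_one, id_eq]
    rw [if_pos h3, if_pos h2, if_pos h1]
  · have h3 : ¬ ∀ i : ℕ, (cons n j z i).val < N := fun h => h2 (key.1 h).2
    simp only [Perm.coe_one, id_eq]
    rw [if_neg h3, if_neg h2]
  · have h3 : ¬ ∀ i : ℕ, (cons n j z i).val < N := fun h => h1 (key.1 h).1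
    simp only [Perm.coe_one, id_eq]
    rw [if_neg h3, if_pos h2, if_neg h1, one_mul]
  · have h3 : ¬ ∀ i : ℕ, (cons n j z i).val < N := fun h => h1 (key.1 h).1
    simp only [Perm.coe_one, id_eq]
    rw [if_neg h3, if_neg h2]

/-- the base subgroup -/
noncomputable def KK (n N : ℕ) (H : Type) [Group H] : Subgroup (Perm (Om n H)) := (io n N : H →* _).range

theorem KK_le : KK n N H ≤ W (Ph n H) (P n) (KK n N H) := by
  rintro _ ⟨x, rfl⟩
  refine ⟨_, 1, Subgroup.one_mem _, fun j => ?_, io_th n N x⟩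
  exact ⟨_, rfl⟩

/-- left twists -/
noncomputable def SS (st : ℕ → H × H × H) (i : ℕ) (j : ZMod n) : Perm (Om n H) :=
  io n N (if j.val < N then ((st i).1 ^ j.val)⁻¹ else 1)

/-- right twists -/
noncomputable def TT (st : ℕ → H × H × H) (i : ℕ) (j : ZMod n) : Perm (Om n H) :=
  io n N (if j.val < N then (st i).2.1 ^ j.val else (st i).2.2)

variable {n N}
variable {st : ℕ → H × H × H}

theorem twist (i : ℕ) (x : H) :
    (th (Ph n H) (SS n N st i) 1)⁻¹ * io n N x * th (Ph n H) (TT n N st i) 1 =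
      th (Ph n H) (fun j => io n N (kap n N (st i) x j)) 1 := by
  rw [io_th n N x, th_inv, th_mul, th_mul]
  congr 1
  · funext j
    simp only [SS, TT, kap, inv_one, Perm.one_apply, ← map_inv, ← map_mul]
    congr 1
    by_cases h1 : j.val < N
    · simp [h1]
    · simp [h1]
  
theorem rot_mem (r : ZMod n) : (Equiv.addRight r : Perm (ZMod n)) ∈ P n := ⟨r, fun _ => rfl⟩

theorem base_step [NeZero n] {i : ℕ} {E : H → H → Prop}
    (hE : ∀ x x', E x x' →
      Tower2.R (Ph n H) (P n) (SS n N st) (TT n N st) (i + 1) (io n N x) (io n N x')) {x x' : H}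
    (h : stepRel n N (st i) E x x') :
    Tower2.R (Ph n H) (P n) (SS n N st) (TT n N st) i (io n N x) (io n N x') := by
  obtain ⟨r, hr⟩ := h
  refine Tower2.R_lift (Ph n H) (k := fun j => io n N (kap n N (st i) x j))
    (k' := fun j => io n N (kap n N (st i) x' j)) (p := 1) (p' := 1)
    (r := Equiv.addRight r) (P n).one_mem (P n).one_mem (rot_mem r)
    (twist i x) (twist i x') ?_
  intro j
  exact hE _ _ (hr j)

theorem base_seg [NeZero n] (l : List (H × H × H)) (i : ℕ)
    (hst : ∀ k (hk : k < l.length), st (i + k) = l[k]) {x x' : H}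
    (h : rel n N l x x') :
    Tower2.R (Ph n H) (P n) (SS n N st) (TT n N st) i (io n N x) (io n N x') := by
  induction l generalizing i x x' with
  | nil =>
    obtain rfl : x = x' := h
    exact Tower2.R_refl _ _ _
  | cons a l ih =>
    have h0 : st i = a := hst 0 (by simp)
    have h : stepRel n N (st i) (rel n N l) x x' := by rw [h0]; exact h
    refine base_step (E := rel n N l) ?_ h
    intro z z' hz
    refine ih (i + 1) ?_ hz
    intro k hk
    have := hst (k + 1) (by simpa using hk)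
    simpa [add_assoc, add_comm 1 k] using this

/-- the periodic program -/
def prog (l : List (H × H × H)) (i : ℕ) : H × H × H := l.getD (i % l.length) (1, 1, 1)

theorem base_all [NeZero n] (l : List (H × H × H)) (hl0 : 0 < l.length)
    (hl : ∀ x x', rel n N l x x') (i : ℕ) (x x' : H) :
    Tower2.R (Ph n H) (P n) (SS n N (prog l)) (TT n N (prog l)) i (io n N x) (io n N x') := by
  have h0 : ∀ q, ∀ x x', Tower2.R (Ph n H) (P n) (SS n N (prog l)) (TT n N (prog l)) (l.length * q)
      (io n N x) (io n N x') := by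
    intro q x x'
    refine base_seg l _ ?_ (hl x x')
    intro k hk
    rw [prog, Nat.mul_add_mod, Nat.mod_eq_of_lt hk]
    exact List.getD_eq_getElem _ _ hk
  have h1 : ∀ d i, (∀ x x', Tower2.R (Ph n H) (P n) (SS n N (prog l)) (TT n N (prog l)) (i + d)
      (io n N x) (io n N x')) → ∀ x x', Tower2.R (Ph n H) (P n) (SS n N (prog l)) (TT n N (prog l)) i
      (io n N x) (io n N x') := by
    intro d
    induction d with
    | zero => intro i h; exact h
    | succ d ih =>
      intro i h
      refine ih i ?_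
      intro x x'
      refine base_step (E := fun _ _ => True) ?_ ⟨0, fun _ => trivial⟩
      intro z z' _
      exact h z z'
  have h2 : i ≤ l.length * (i / l.length + 1) := by
    have := Nat.lt_mul_div_succ i hl0
    exact this.le
  obtain ⟨d, hd⟩ := Nat.exists_eq_add_of_le h2
  exact h1 d i (hd ▸ h0 _) x x'

/-- the big group -/
noncomputable def GG (n N : ℕ) (H : Type) [Group H] : Subgroup (Perm (Om n H)) :=
  uni (tow (Ph n H) (P n) (KK n N H)) (tow_mono _ (KK_le n N))

theorem SS_mem (i : ℕ) (j : ZMod n) : SS n N st i j ∈ KK n N H := ⟨_, rfl⟩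
theorem TT_mem (i : ℕ) (j : ZMod n) : TT n N st i j ∈ KK n N H := ⟨_, rfl⟩

/-- the factorization -/
theorem GG_fact [NeZero n] (l : List (H × H × H))
    (hl : ∀ x x', rel n N l x x') :
    ∃ A B : Subgroup (Perm (Om n H)), A ≤ GG n N H ∧ B ≤ GG n N H ∧
      (∀ M : Submonoid ℕ, n ∈ M → (∀ a ∈ A, ∃ e ∈ M, a ^ e = 1) ∧ (∀ a ∈ B, ∃ e ∈ M, a ^ e = 1)) ∧
      ∀ g ∈ GG n N H, ∃ a ∈ A, ∃ b ∈ B, g = a * b := by
  have hl' : ∀ x x', rel n N ((1, 1, 1) :: l) x x' := by
    intro x x'
    exact ⟨0, fun j => hl _ _⟩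
  have hb := base_all (n := n) (N := N) ((1, 1, 1) :: l) (by simp) hl'
  refine ⟨CC (Ph n H) (P n) (SS n N (prog ((1, 1, 1) :: l))) 0,
    CC (Ph n H) (P n) (TT n N (prog ((1, 1, 1) :: l))) 0, ?_, ?_, ?_, ?_⟩
  · rintro g ⟨k, hk⟩
    exact ⟨k, ctow_le _ (KK_le n N) (fun i j => SS_mem i j) k 0 hk⟩
  · rintro g ⟨k, hk⟩
    exact ⟨k, ctow_le _ (KK_le n N) (fun i j => TT_mem i j) k 0 hk⟩
  · intro M hM
    have hP : ∀ p ∈ P n, ∃ e ∈ M, p ^ e = 1 := fun p hp => ⟨n, hM, P_pow n p hp⟩
    constructor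
    · rintro a ⟨k, hk⟩
      exact ctow_torsion _ M hP k 0 a hk
    · rintro a ⟨k, hk⟩
      exact ctow_torsion _ M hP k 0 a hk
  · rintro g ⟨k, hk⟩
    have hbase : ∀ i, ∀ x ∈ KK n N H, Tower2.R (Ph n H) (P n) (SS n N (prog ((1, 1, 1) :: l)))
        (TT n N (prog ((1, 1, 1) :: l))) i 1 x := by
      rintro i _ ⟨x, rfl⟩
      have := hb i 1 x
      rwa [map_one] at this
    obtain ⟨a, ha, b, hb, hab⟩ := Tower2.fact (Ph n H) (P := P n) (K := KK n N H)
      (S := SS n N (prog ((1, 1, 1) :: l))) (T := TT n N (prog ((1, 1, 1) :: l)))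
      (fun i j => SS_mem i j) (fun i j => TT_mem i j) (KK_le n N) hbase k 0 g hk
    exact ⟨a, ha, b, hb, by simpa using hab⟩

/-- local finiteness -/
theorem GG_locally_finite [NeZero n] [Finite H] (s : Finset (GG n N H)) :
    Finite (Subgroup.closure (s : Set (GG n N H))) := by
  classical
  obtain ⟨k, hk⟩ := uni_family (tow_mono (Ph n H) (P := P n) (KK_le n N))
    (fun t : s => ((t : GG n N H) : Perm (Om n H))) (fun t => (t : GG n N H).2)
  have hle : (Subgroup.closure (s : Set (GG n N H))).map (GG n N H).subtype ≤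
      tow (Ph n H) (P n) (KK n N H) k := by
    rw [Subgroup.map_le_iff_le_comap, Subgroup.closure_le]
    intro t ht
    exact hk ⟨t, ht⟩
  have hfin : (tow (Ph n H) (P n) (KK n N H) k : Set (Perm (Om n H))).Finite := by
    refine tow_finite _ ?_ k
    exact Set.finite_range _
  have : Finite (tow (Ph n H) (P n) (KK n N H) k) := hfin
  refine Finite.of_injective (β := tow (Ph n H) (P n) (KK n N H) k)
    (fun x => ⟨((x : GG n N H) : Perm (Om n H)), hle ⟨x, x.2, rfl⟩⟩) ?_
  intro x y hxy
  have := congrArg Subtype.val hxy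
  exact Subtype.ext (Subtype.ext this)

end

end Pool.Agent.Helper914.Wr
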