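import Mathlib
import Pool.Agent.Helper914.Wr

set_option autoImplicit false

namespace Pool.Agent.Helper914.S5

open Equiv Pool.Agent.Helper914.Merge Pool.Agent.Helper914.Wr

/-- multiplication by `2` on `ZMod 5` -/
def m2 : Perm (ZMod 5) where
  toFun := fun t => 2 * t
  invFun := fun t => 3 * t
  left_inv := by decide
  right_inv := by decide

/-- translation by `1` on `ZMod 5` -/
def c1 : Perm (ZMod 5) := Equiv.addRight 1

/-- `(0 1 2)(3 4)` -/
def b6 : Perm (ZMod 5) := swap 0 1 * swap 1 2 * swap 3 4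

/-- affine maps -/
def K2 : Subgroup (Perm (ZMod 5)) where
  carrier := {p | ∃ u v : ZMod 5, u ≠ 0 ∧ ∀ t, p t = u * t + v}
  mul_mem' := by
    rintro p q ⟨u, v, hu, h⟩ ⟨u', v', hu', h'⟩
    refine ⟨u * u', u * v' + v, ?_, fun t => ?_⟩
    · clear h h'; revert u u'; decide
    · rw [Perm.mul_apply, h, h']; ring
  one_mem' := ⟨1, 0, by decide, fun t => by simp⟩
  inv_mem' := by
    rintro p ⟨u, v, hu, h⟩
    obtain ⟨w, hw⟩ : ∃ w : ZMod 5, w * u = 1 := by
      clear h; revert u; decide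
    refine ⟨w, - (w * v), ?_, fun t => ?_⟩
    · rintro rfl; revert hw; rw [zero_mul]; decide
    · have := h (p⁻¹ t)
      rw [show p (p⁻¹ t) = t by simp] at this
      generalize p⁻¹ t = z at this ⊢
      linear_combination (-z) * hw + (-w) * this

theorem gen1 : ∀ v : ZMod 5, ∀ t, (c1 ^ v.val) t = t + v := by decide +kernel

theorem gen2 : ∀ u v : ZMod 5, u ≠ 0 → ∃ a : Fin 4, ∃ w : ZMod 5, ∀ t : ZMod 5,
    (m2 ^ a.val)⁻¹ (u * t + v) = t + w := by decide +kernel

theorem gen3 : ∀ x : Perm (ZMod 5), ∃ a : Fin 6, ∃ u v : ZMod 5, u ≠ 0 ∧ ∀ t : ZMod 5,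
    ((b6 ^ a.val)⁻¹ * x) t = u * t + v := by decide +kernel

theorem pow120 (x : Perm (ZMod 5)) : x ^ 120 = 1 := by
  have h : Fintype.card (Perm (ZMod 5)) = 120 := by
    rw [Fintype.card_perm, ZMod.card]; rfl
  rw [← h]
  exact pow_card_eq_one

theorem exists_program : ∃ l : List (Perm (ZMod 5) × Perm (ZMod 5) × Perm (ZMod 5)),
    ∀ x x', rel 128 120 l x x' := by
  have h0 : Mg 128 120 (co (⊥ : Subgroup (Perm (ZMod 5)))) := Mg_bot
  have h1 : Mg 128 120 (co (P 5)) := by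
    refine Mg_chain (by norm_num) (by norm_num) (pow120 c1) ⟨1, fun _ => rfl⟩ ?_ ?_ h0
    · intro x hx
      rw [Subgroup.mem_bot] at hx
      subst hx
      simp
    · rintro x ⟨v, hv⟩
      refine ⟨v.val, ?_⟩
      rw [Subgroup.mem_bot, inv_mul_eq_one]
      ext1 t
      rw [gen1, hv]
  have h2 : Mg 128 120 (co K2) := by
    refine Mg_chain (by norm_num) (by norm_num) (pow120 m2) ⟨2, 0, by decide, fun t => ?_⟩ ?_ ?_ h1
    · rw [add_zero]; rfl
    · rintro x ⟨v, hv⟩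
      refine ⟨3 * v, fun t => ?_⟩
      change 3 * (x (2 * t)) = t + 3 * v
      rw [hv]
      have : (3 * 2 : ZMod 5) = 1 := by decide
      linear_combination t * this
    · rintro x ⟨u, v, hu, hv⟩
      obtain ⟨a, w, hw⟩ := gen2 u v hu
      refine ⟨a.val, w, fun t => ?_⟩
      rw [Perm.mul_apply, hv, hw]
  refine Mg_top (by norm_num) (by norm_num) (pow120 b6) ?_ h2
  intro x
  obtain ⟨a, u, v, hu, h⟩ := gen3 x
  exact ⟨a.val, u, v, hu, h⟩

theorem not_solvable : ¬ Group.IsSolvable (Perm (ZMod 5)) := Equiv.Perm.not_isSolvable_fin_5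

end Pool.Agent.Helper914.S5
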